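import Mathlib

/-!
# Infinite interval-splitting strategies that beat the de Bruijn–Erdős strategy infinitely often

Let `0 < G < log 2` and `φ x = (1 - exp (-G x)) / (1 - exp (-G))`, an increasing bijection of `[0,1]`.
The strategy cuts `[0,1]` at the images `φ (j / 2 ^ k)` of the dyadic points, level by level and from
left to right. At time `n + i`, where `n = 2 ^ k` and `i < n`, the lengths are
`φ ((j + 1) / 2n) - φ (j / 2n)` for `j < 2 i` and `φ ((j + 1) / n) - φ (j / n)` for `i ≤ j < n`, and the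
quotient of any two of them is at most `exp G < 2` or at most `q (1 + q)` with `q = exp (-G / 2n)`.
Hence the discrepancy up to time `N = 2 ^ k` is at most `2 - 3 G / N + (5/2) G ^ 2 / N ^ 2` for large `k`,
and `3 G` can be any number smaller than `3 log 2 = 2.079...`, which is larger than `3 / 2`.
-/

set_option autoImplicit false

namespace Pool.Agent.Results.MP_32269d_co.GeometricCuts

open Filter

/-- A partition of `[0,1]` into finitely many intervals of positive length, given by the list of the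
lengths of its intervals from left to right. -/
def IsPartition (l : List ℝ) : Prop := (∀ x ∈ l, 0 < x) ∧ l.sum = 1

/-- `l'` arises from `l` by cutting one interval, of length `y + z`, into two intervals of the lengths
`y` and `z`. -/
def Cut (l l' : List ℝ) : Prop :=
  ∃ (l₁ l₂ : List ℝ) (y z : ℝ), l = l₁ ++ (y + z) :: l₂ ∧ l' = l₁ ++ y :: z :: l₂

/-- An infinite-length strategy `S 1, S 2, …` (the value `S 0` is irrelevant). -/
structure IsStrategy (S : ℕ → List ℝ) : Prop where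
  part : ∀ i, 1 ≤ i → IsPartition (S i)
  len : ∀ i, 1 ≤ i → (S i).length = i
  cut : ∀ i, 1 ≤ i → Cut (S i) (S (i + 1))

/-- The discrepancy of a partition: the largest quotient of the lengths of two of its intervals. -/
noncomputable def disc (l : List ℝ) : ℝ := sSup {r | ∃ x ∈ l, ∃ y ∈ l, r = x / y}

/-- `disc_n(S)`: the maximum of `disc (S t)` for `1 ≤ t ≤ n`. -/
noncomputable def discUpTo (S : ℕ → List ℝ) (n : ℕ) : ℝ :=
  sSup {r | ∃ t, 1 ≤ t ∧ t ≤ n ∧ r = disc (S t)}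

/-- the length `φ ((j + 1) / m) - φ (j / m)` -/
noncomputable def dl (G : ℝ) (m j : ℕ) : ℝ :=
  Real.exp (-(G * j / m)) * (1 - Real.exp (-(G / m))) / (1 - Real.exp (-G))

/-- the partition at time `n + i` -/
noncomputable def L (G : ℝ) (n i : ℕ) : List ℝ :=
  (List.range (2 * i)).map (dl G (2 * n)) ++ (List.range (n - i)).map (fun j => dl G n (i + j))

/-- the strategy -/
noncomputable def S (G : ℝ) (t : ℕ) : List ℝ := L G (2 ^ Nat.log 2 t) (t - 2 ^ Nat.log 2 t)

lemma one_sub_pos {G : ℝ} (hG : 0 < G) : 0 < 1 - Real.exp (-G) := by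
  have : Real.exp (-G) < 1 := by rw [Real.exp_lt_one_iff]; linarith
  linarith

lemma dl_pos {G : ℝ} (hG : 0 < G) {m : ℕ} (hm : 1 ≤ m) (j : ℕ) : 0 < dl G m j := by
  have h1 : (0 : ℝ) < m := by exact_mod_cast hm
  have h2 : 0 < G / m := div_pos hG h1
  unfold dl
  exact div_pos (mul_pos (Real.exp_pos _) (one_sub_pos h2)) (one_sub_pos hG)

lemma dl_split {G : ℝ} {n : ℕ} (hn : 1 ≤ n) (i : ℕ) :
    dl G n i = dl G (2 * n) (2 * i) + dl G (2 * n) (2 * i + 1) := by
  have h1 : (n : ℝ) ≠ 0 := by positivity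
  unfold dl
  push_cast
  have e1 : G * (2 * (i : ℝ)) / (2 * n) = G * i / n := by field_simp
  have e2 : Real.exp (-(G * (2 * (i : ℝ) + 1) / (2 * n))) =
      Real.exp (-(G * i / n)) * Real.exp (-(G / (2 * n))) := by
    rw [← Real.exp_add]
    congr 1
    field_simp
    ring
  have e3 : Real.exp (-(G / n)) = Real.exp (-(G / (2 * n))) * Real.exp (-(G / (2 * n))) := by
    rw [← Real.exp_add]
    congr 1
    field_simp
    ring
  rw [e1, e2, e3]
  ring

lemma L_cut {G : ℝ} {n : ℕ} (hn : 1 ≤ n) {i : ℕ} (hi : i < n) : Cut (L G n i) (L G n (i + 1)) := by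
  refine ⟨(List.range (2 * i)).map (dl G (2 * n)),
    (List.range (n - (i + 1))).map (fun j => dl G n (i + 1 + j)),
    dl G (2 * n) (2 * i), dl G (2 * n) (2 * i + 1), ?_, ?_⟩
  · unfold L
    have e : n - i = (n - (i + 1)) + 1 := by omega
    rw [e, List.range_succ_eq_map, List.map_cons, List.map_map, ← dl_split hn]
    congr 2
    apply List.map_congr_left
    intro j _
    show dl G n (i + (j + 1)) = dl G n (i + 1 + j)
    congr 1
    omega
  · unfold L
    have e : 2 * (i + 1) = 2 * i + 1 + 1 := by omega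
    rw [e, List.range_succ, List.range_succ]
    simp

lemma L_full (G : ℝ) (n : ℕ) : L G n n = L G (2 * n) 0 := by
  unfold L
  simp

lemma L_length (G : ℝ) {n i : ℕ} (hi : i ≤ n) : (L G n i).length = n + i := by
  unfold L
  simp
  omega

lemma L_pos {G : ℝ} (hG : 0 < G) {n : ℕ} (hn : 1 ≤ n) (i : ℕ) : ∀ x ∈ L G n i, 0 < x := by
  intro x hx
  unfold L at hx
  rw [List.mem_append, List.mem_map, List.mem_map] at hx
  rcases hx with ⟨j, _, rfl⟩ | ⟨j, _, rfl⟩
  · exact dl_pos hG (by omega) j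
  · exact dl_pos hG hn _

lemma S_eq (G : ℝ) {k i : ℕ} (hi : i < 2 ^ k) : S G (2 ^ k + i) = L G (2 ^ k) i := by
  have h : Nat.log 2 (2 ^ k + i) = k := by
    apply Nat.log_eq_of_pow_le_of_lt_pow
    · omega
    · rw [pow_succ]; omega
  unfold S
  rw [h, Nat.add_sub_cancel_left]

/-- every `t ≥ 1` is `2 ^ k + i` with `i < 2 ^ k` -/
lemma exists_rep {t : ℕ} (ht : 1 ≤ t) : ∃ k i, i < 2 ^ k ∧ t = 2 ^ k + i := by
  refine ⟨Nat.log 2 t, t - 2 ^ Nat.log 2 t, ?_, ?_⟩
  · have h1 := Nat.lt_pow_succ_log_self (b := 2) (by norm_num) t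
    have h2 := Nat.pow_log_le_self 2 (x := t) (by omega)
    rw [pow_succ] at h1
    omega
  · have h2 := Nat.pow_log_le_self 2 (x := t) (by omega)
    omega

lemma S_succ (G : ℝ) {k i : ℕ} (hi : i < 2 ^ k) : S G (2 ^ k + i + 1) = L G (2 ^ k) (i + 1) := by
  by_cases h : i + 1 < 2 ^ k
  · rw [add_assoc, S_eq G h]
  · have e : i + 1 = 2 ^ k := by omega
    have e2 : 2 ^ k + i + 1 = 2 ^ (k + 1) + 0 := by rw [pow_succ]; omega
    rw [e2, S_eq G (by positivity), e, L_full, pow_succ, mul_comm]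

lemma sum_cut {l l' : List ℝ} (h : Cut l l') : l'.sum = l.sum := by
  obtain ⟨l₁, l₂, y, z, rfl, rfl⟩ := h
  simp
  ring

theorem S_strategy {G : ℝ} (hG : 0 < G) : IsStrategy (S G) := by
  have hcut : ∀ i, 1 ≤ i → Cut (S G i) (S G (i + 1)) := by
    intro t ht
    obtain ⟨k, i, hi, rfl⟩ := exists_rep ht
    rw [S_eq G hi, S_succ G hi]
    exact L_cut (Nat.one_le_two_pow) hi
  have hsum : ∀ i, 1 ≤ i → (S G i).sum = 1 := by
    intro i hi
    induction i, hi using Nat.le_induction with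
    | base =>
      have h := S_eq G (k := 0) (i := 0) (by norm_num)
      have e : (2 ^ 0 + 0 : ℕ) = 1 := by norm_num
      rw [e] at h
      rw [h]
      have h1 := one_sub_pos hG
      unfold L dl
      simp
      exact h1.ne'
    | succ m hm ih => rw [sum_cut (hcut m hm), ih]
  refine ⟨fun t ht => ⟨?_, hsum t ht⟩, fun t ht => ?_, hcut⟩
  · obtain ⟨k, i, hi, rfl⟩ := exists_rep ht
    rw [S_eq G hi]
    exact L_pos hG Nat.one_le_two_pow i
  · obtain ⟨k, i, hi, rfl⟩ := exists_rep ht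
    rw [S_eq G hi]
    exact L_length G hi.le

/-- the quotient of two lengths -/
lemma dl_div {G : ℝ} (hG : 0 < G) {m : ℕ} (hm : 1 ≤ m) (j j' : ℕ) :
    dl G m j / dl G m j' = Real.exp (G * ((j' : ℝ) - j) / m) := by
  have h1 : (0 : ℝ) < m := by exact_mod_cast hm
  have h2 := (one_sub_pos (div_pos hG h1)).ne'
  have h3 := (one_sub_pos hG).ne'
  have h4 := (Real.exp_pos (-(G * (j' : ℝ) / m))).ne'
  rw [div_eq_iff (dl_pos hG hm j').ne']
  unfold dl
  have e : Real.exp (-(G * (j : ℝ) / m)) =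
      Real.exp (G * ((j' : ℝ) - j) / m) * Real.exp (-(G * (j' : ℝ) / m)) := by
    rw [← Real.exp_add]
    congr 1
    field_simp
    ring
  rw [e]
  ring

lemma dl_le_dl {G : ℝ} (hG : 0 < G) {m : ℕ} (hm : 1 ≤ m) {j j' : ℕ} (h : j' < m) :
    dl G m j / dl G m j' ≤ Real.exp G := by
  rw [dl_div hG hm, Real.exp_le_exp]
  have h1 : (0 : ℝ) < m := by exact_mod_cast hm
  rw [div_le_iff₀ h1]
  have h2 : (j' : ℝ) < m := by exact_mod_cast h
  have h3 : (0 : ℝ) ≤ j := Nat.cast_nonneg j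
  nlinarith

lemma dl_antitone {G : ℝ} (hG : 0 < G) {m : ℕ} (hm : 1 ≤ m) {j j' : ℕ} (h : j ≤ j') :
    dl G m j' ≤ dl G m j := by
  have h1 : (0 : ℝ) < m := by exact_mod_cast hm
  have h2 := dl_pos hG hm j
  have h3 := dl_div hG hm j' j
  rw [div_eq_iff h2.ne'] at h3
  rw [h3]
  have h4 : Real.exp (G * ((j : ℝ) - j') / m) ≤ 1 := by
    rw [Real.exp_le_one_iff]
    apply div_nonpos_of_nonpos_of_nonneg _ h1.le
    have : (j : ℝ) ≤ j' := by exact_mod_cast h
    nlinarith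
  nlinarith

/-- the ratio bound at time `n + i` -/
lemma ratio_le {G : ℝ} (hG : 0 < G) {n : ℕ} (hn : 1 ≤ n) {i : ℕ} (hi : i < n) {x y : ℝ}
    (hx : x ∈ L G n i) (hy : y ∈ L G n i) :
    x / y ≤ max (Real.exp G)
      (Real.exp (-(G / ((2 * n : ℕ) : ℝ))) * (1 + Real.exp (-(G / ((2 * n : ℕ) : ℝ))))) ∧
    (i = 0 → x / y ≤ Real.exp G) := by
  have h2n : 1 ≤ 2 * n := by omega
  unfold L at hx hy
  rw [List.mem_append, List.mem_map, List.mem_map] at hx hy
  rcases hx with ⟨j, hj, rfl⟩ | ⟨j, hj, rfl⟩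
  · rw [List.mem_range] at hj
    rcases hy with ⟨j', hj', rfl⟩ | ⟨j', hj', rfl⟩
    · rw [List.mem_range] at hj'
      refine ⟨le_max_of_le_left (dl_le_dl hG h2n (by omega)), fun h => by omega⟩
    · rw [List.mem_range] at hj'
      refine ⟨le_max_of_le_left ?_, fun h => by omega⟩
      have h1 : dl G (2 * n) (2 * (i + j')) ≤ dl G n (i + j') := by
        rw [dl_split hn]
        have := dl_pos hG h2n (2 * (i + j') + 1)
        linarith
      have h3 := dl_pos hG h2n (2 * (i + j'))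
      have h4 := dl_pos hG h2n j
      calc dl G (2 * n) j / dl G n (i + j') ≤ dl G (2 * n) j / dl G (2 * n) (2 * (i + j')) := by
            apply div_le_div_of_nonneg_left h4.le h3 h1
        _ ≤ Real.exp G := dl_le_dl hG h2n (by omega)
  · rw [List.mem_range] at hj
    rcases hy with ⟨j', hj', rfl⟩ | ⟨j', hj', rfl⟩
    · rw [List.mem_range] at hj'
      refine ⟨le_max_of_le_right ?_, fun h => by omega⟩
      have h1 : dl G n (i + j) ≤ dl G n i := dl_antitone hG hn (by omega)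
      have h2 : dl G (2 * n) (2 * i - 1) ≤ dl G (2 * n) j' := dl_antitone hG h2n (by omega)
      have h3 := dl_pos hG h2n (2 * i - 1)
      have h4 := dl_pos hG hn i
      have h5 := dl_pos hG h2n j'
      calc dl G n (i + j) / dl G (2 * n) j' ≤ dl G n i / dl G (2 * n) (2 * i - 1) := by
            apply div_le_div₀ h4.le h1 h3 h2
        _ = Real.exp (-(G / ((2 * n : ℕ) : ℝ))) * (1 + Real.exp (-(G / ((2 * n : ℕ) : ℝ)))) := by
          have hi1 : 1 ≤ i := by omega
          have h0 : (0 : ℝ) < ((2 * n : ℕ) : ℝ) := by exact_mod_cast h2n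
          rw [dl_split hn, add_div, dl_div hG h2n, dl_div hG h2n, mul_add, mul_one, ← Real.exp_add]
          have e1 : ((2 * i - 1 : ℕ) : ℝ) = 2 * (i : ℝ) - 1 := by
            rw [Nat.cast_sub (by omega)]; push_cast; ring
          congr 1
          · congr 1
            rw [e1]
            push_cast
            field_simp
            ring
          · congr 1
            rw [e1]
            push_cast
            field_simp
            ring
    · rw [List.mem_range] at hj'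
      exact ⟨le_max_of_le_left (dl_le_dl hG hn (by omega)),
        fun _ => dl_le_dl hG hn (by omega)⟩

/-- the discrepancy up to time `2 ^ K` -/
theorem disc_bound {G : ℝ} (hG : 0 < G) (K : ℕ) :
    discUpTo (S G) (2 ^ K) ≤ max (Real.exp G)
      (Real.exp (-(G / ((2 ^ K : ℕ) : ℝ))) * (1 + Real.exp (-(G / ((2 ^ K : ℕ) : ℝ))))) := by
  have hpos : (0 : ℝ) ≤ max (Real.exp G)
      (Real.exp (-(G / ((2 ^ K : ℕ) : ℝ))) * (1 + Real.exp (-(G / ((2 ^ K : ℕ) : ℝ))))) :=
    le_max_of_le_left (Real.exp_pos G).le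
  refine Real.sSup_le ?_ hpos
  rintro r ⟨t, ht, htK, rfl⟩
  refine Real.sSup_le ?_ hpos
  rintro r ⟨x, hx, y, hy, rfl⟩
  obtain ⟨k, i, hi, rfl⟩ := exists_rep ht
  rw [S_eq G hi] at hx hy
  have h := ratio_le hG (Nat.one_le_two_pow (n := k)) hi hx hy
  by_cases hkK : k + 1 ≤ K
  · refine h.1.trans (max_le_max le_rfl ?_)
    have h1 : Real.exp (-(G / ((2 * 2 ^ k : ℕ) : ℝ))) ≤ Real.exp (-(G / ((2 ^ K : ℕ) : ℝ))) := by
      rw [Real.exp_le_exp, neg_le_neg_iff]
      apply div_le_div_of_nonneg_left hG.le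
      · positivity
      · have : 2 * 2 ^ k ≤ 2 ^ K := by
          calc 2 * 2 ^ k = 2 ^ (k + 1) := by rw [pow_succ, mul_comm]
            _ ≤ 2 ^ K := Nat.pow_le_pow_right (by norm_num) hkK
        exact_mod_cast this
    have h2 := Real.exp_pos (-(G / ((2 * 2 ^ k : ℕ) : ℝ)))
    exact mul_le_mul h1 (by linarith) (by linarith) (Real.exp_pos _).le
  · have hK : K ≤ k := by omega
    have h2 : 2 ^ K ≤ 2 ^ k := Nat.pow_le_pow_right (by norm_num) hK
    exact (h.2 (by omega)).trans (le_max_left _ _)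

lemma exp_neg_le {u : ℝ} (hu : 0 ≤ u) : Real.exp (-u) ≤ 1 - u + u ^ 2 / 2 := by
  have h1 : 1 + u + u ^ 2 / 2 ≤ Real.exp u := Real.quadratic_le_exp_of_nonneg hu
  rw [Real.exp_neg, inv_le_comm₀ (Real.exp_pos _) (by nlinarith [sq_nonneg (u - 1)])]
  refine le_trans ?_ h1
  rw [inv_le_iff_one_le_mul₀ (by nlinarith [sq_nonneg (u - 1)])]
  nlinarith [sq_nonneg (u ^ 2), sq_nonneg u, mul_nonneg hu hu]

theorem disc_le {G : ℝ} (hG : 0 < G) (hG2 : G < Real.log 2) :
    ∀ᶠ K : ℕ in atTop, discUpTo (S G) (2 ^ K) ≤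
      2 - 3 * G / ((2 ^ K : ℕ) : ℝ) + 5 / 2 * G ^ 2 / ((2 ^ K : ℕ) : ℝ) ^ 2 := by
  have hlim : Tendsto (fun K : ℕ => G / ((2 ^ K : ℕ) : ℝ)) atTop (nhds 0) := by
    push_cast
    exact Tendsto.div_atTop tendsto_const_nhds (tendsto_pow_atTop_atTop_of_one_lt (by norm_num))
  have hexp : Real.exp G < 2 := by
    calc Real.exp G < Real.exp (Real.log 2) := Real.exp_lt_exp.2 hG2
      _ = 2 := Real.exp_log (by norm_num)
  have hev : ∀ᶠ K : ℕ in atTop, G / ((2 ^ K : ℕ) : ℝ) < (2 - Real.exp G) / 3 :=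
    hlim.eventually_lt_const (by linarith)
  filter_upwards [hev] with K hK
  have h0 : (0 : ℝ) < ((2 ^ K : ℕ) : ℝ) := by positivity
  set x := G / ((2 ^ K : ℕ) : ℝ) with hx
  have hx0 : 0 ≤ x := (div_pos hG h0).le
  have e1 : 2 - 3 * G / ((2 ^ K : ℕ) : ℝ) + 5 / 2 * G ^ 2 / ((2 ^ K : ℕ) : ℝ) ^ 2 =
      2 - 3 * x + 5 / 2 * x ^ 2 := by
    rw [hx, div_pow]; ring
  rw [e1]
  refine (disc_bound hG K).trans (max_le ?_ ?_)
  · nlinarith [sq_nonneg x]
  · rw [← hx, mul_add, mul_one, ← Real.exp_add]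
    have h1 := exp_neg_le hx0
    have h2 := exp_neg_le (u := 2 * x) (by linarith)
    have e2 : -x + -x = -(2 * x) := by ring
    rw [e2]
    nlinarith

theorem result :
    (∃ S : ℕ → List ℝ, IsStrategy S ∧
      ∀ C : ℝ, ∃ n : ℕ, 1 ≤ n ∧ discUpTo S n < 2 - 3 / (2 * n) - C / n ^ 2) ∧
    (∀ c : ℝ, c < 3 * Real.log 2 → ∃ S : ℕ → List ℝ, IsStrategy S ∧
      ∀ᶠ k : ℕ in atTop, discUpTo S (2 ^ k) < 2 - c / 2 ^ k) := by
  have key : ∀ G : ℝ, 0 < G → G < Real.log 2 → ∀ c C : ℝ, c < 3 * G →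
      ∀ᶠ K : ℕ in atTop, discUpTo (S G) (2 ^ K) <
        2 - c / ((2 ^ K : ℕ) : ℝ) - C / ((2 ^ K : ℕ) : ℝ) ^ 2 := by
    intro G hG hG2 c C hc
    have hlim : Tendsto (fun K : ℕ => (C + 5 / 2 * G ^ 2) / ((2 ^ K : ℕ) : ℝ)) atTop (nhds 0) := by
      push_cast
      exact Tendsto.div_atTop tendsto_const_nhds (tendsto_pow_atTop_atTop_of_one_lt (by norm_num))
    have hev : ∀ᶠ K : ℕ in atTop, (C + 5 / 2 * G ^ 2) / ((2 ^ K : ℕ) : ℝ) < 3 * G - c :=
      hlim.eventually_lt_const (by linarith)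
    filter_upwards [hev, disc_le hG hG2] with K h1 h2
    refine lt_of_le_of_lt h2 ?_
    have h0 : (0 : ℝ) < ((2 ^ K : ℕ) : ℝ) := by positivity
    have h3 : (C + 5 / 2 * G ^ 2) / ((2 ^ K : ℕ) : ℝ) / ((2 ^ K : ℕ) : ℝ) <
        (3 * G - c) / ((2 ^ K : ℕ) : ℝ) := div_lt_div_of_pos_right h1 h0
    have e1 : (C + 5 / 2 * G ^ 2) / ((2 ^ K : ℕ) : ℝ) / ((2 ^ K : ℕ) : ℝ) =
        C / ((2 ^ K : ℕ) : ℝ) ^ 2 + 5 / 2 * G ^ 2 / ((2 ^ K : ℕ) : ℝ) ^ 2 := by
      field_simp
    have e2 : (3 * G - c) / ((2 ^ K : ℕ) : ℝ) = 3 * G / ((2 ^ K : ℕ) : ℝ) - c / ((2 ^ K : ℕ) : ℝ) := by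
      rw [sub_div]
    rw [e1, e2] at h3
    linarith
  have hlog : (0.6931471803 : ℝ) < Real.log 2 := Real.log_two_gt_d9
  refine ⟨⟨S (3 / 5), S_strategy (by norm_num), fun C => ?_⟩, fun c hc => ?_⟩
  · obtain ⟨K, hK⟩ := (key (3 / 5) (by norm_num) (by linarith) (3 / 2) C (by norm_num)).exists
    refine ⟨2 ^ K, Nat.one_le_two_pow, ?_⟩
    have e : (3 : ℝ) / (2 * ((2 ^ K : ℕ) : ℝ)) = 3 / 2 / ((2 ^ K : ℕ) : ℝ) := by
      rw [div_div]
    rw [e]
    exact hK
  · obtain ⟨G, h1, h2⟩ := exists_between (show max (c / 3) 0 < Real.log 2 from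
      max_lt (by linarith) (by linarith))
    have hG : 0 < G := lt_of_le_of_lt (le_max_right _ _) h1
    have hc3 : c / 3 < G := lt_of_le_of_lt (le_max_left _ _) h1
    refine ⟨S G, S_strategy hG, ?_⟩
    filter_upwards [key G hG h2 c 0 (by linarith)] with K hK
    push_cast at hK
    simpa using hK

end Pool.Agent.Results.MP_32269d_co.GeometricCuts
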